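import Pool.Agent.R318.QL.Cl0

/-!
# Sums over tuples with an odd multiplicity

Biased random signs, and the comparison with the unbiased ones.
-/

set_option autoImplicit false

noncomputable section

namespace Pool.Agent.V8H40.IN

open Finset Pool.Agent.R318.QL.CL

/-- the weight of a biased sign pattern -/
def wt (s : Finset ℕ) (b : ℕ → ℝ) (T : Finset ℕ) : ℝ :=
  ∏ p ∈ s, if p ∈ T then (1 - b p) / 2 else (1 + b p) / 2

/-- biased moments -/
def RB (s : Finset ℕ) (a b : ℕ → ℝ) (k : ℕ) : ℝ := ∑ T ∈ s.powerset, wt s b T * RS s a T ^ k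

/-- the factor of a tuple -/
def fac (s : Finset ℕ) (b : ℕ → ℝ) {k : ℕ} (f : Fin k → ℕ) : ℝ :=
  ∏ p ∈ s, if Even (univ.filter (fun i => f i = p)).card then 1 else b p

theorem wt_avg (s : Finset ℕ) (b : ℕ → ℝ) {k : ℕ} (f : Fin k → ℕ) (hf : ∀ i, f i ∈ s) :
    ∑ T ∈ s.powerset, wt s b T * ∏ i, sg T (f i) = fac s b f := by
  have h1 : ∀ T ∈ s.powerset, wt s b T * ∏ i, sg T (f i) = ∏ p ∈ s,
      (if p ∈ T then (1 - b p) / 2 * (-1 : ℝ) ^ (univ.filter (fun i => f i = p)).card
        else (1 + b p) / 2) := by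
    intro T _
    rw [prod_fiber s f hf (sg T), wt, ← Finset.prod_mul_distrib]
    refine Finset.prod_congr rfl fun p _ => ?_
    unfold sg
    split_ifs
    · rfl
    · rw [one_pow, mul_one]
  rw [Finset.sum_congr rfl h1, prod_avg, fac]
  refine Finset.prod_congr rfl fun p _ => ?_
  split_ifs with h
  · rw [h.neg_one_pow]
    ring
  · rw [(Nat.not_even_iff_odd.1 h).neg_one_pow]
    ring

theorem rb_eq (s : Finset ℕ) (a b : ℕ → ℝ) (k : ℕ) : RB s a b k =
    ∑ f ∈ Fintype.piFinset (fun _ : Fin k => s), (∏ i, a (f i)) * fac s b f := by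
  unfold RB RS
  have h2 : ∀ T ∈ s.powerset, wt s b T * (∑ p ∈ s, a p * sg T p) ^ k =
      ∑ f ∈ Fintype.piFinset (fun _ : Fin k => s),
        (∏ i, a (f i)) * (wt s b T * ∏ i, sg T (f i)) := by
    intro T _
    rw [pow_expand s a (sg T) k, Finset.mul_sum]
    refine Finset.sum_congr rfl fun f _ => ?_
    ring
  rw [Finset.sum_congr rfl h2, Finset.sum_comm]
  refine Finset.sum_congr rfl fun f hf => ?_
  rw [← Finset.mul_sum, wt_avg s b f (fun i => Fintype.mem_piFinset.1 hf i)]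

theorem rb_hasSum (s : Finset ℕ) (a b : ℕ → ℝ) :
    HasSum (fun k : ℕ => RB s a b k / k.factorial)
      (∏ p ∈ s, (Real.cosh (a p) + b p * Real.sinh (a p))) := by
  have h1 : ∀ T ∈ s.powerset, HasSum (fun k : ℕ => wt s b T * (RS s a T ^ k / k.factorial))
      (wt s b T * Real.exp (RS s a T)) := by
    intro T _
    refine HasSum.mul_left _ ?_
    rw [Real.exp_eq_exp_ℝ]
    exact NormedSpace.expSeries_div_hasSum_exp (RS s a T)
  have h2 := hasSum_sum h1
  have h3 : ∑ T ∈ s.powerset, wt s b T * Real.exp (RS s a T) =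
      ∏ p ∈ s, (Real.cosh (a p) + b p * Real.sinh (a p)) := by
    have h4 : ∀ T ∈ s.powerset, wt s b T * Real.exp (RS s a T) = ∏ p ∈ s,
        (if p ∈ T then (1 - b p) / 2 * Real.exp (-a p) else (1 + b p) / 2 * Real.exp (a p)) := by
      intro T _
      unfold RS
      rw [Real.exp_sum, wt, ← Finset.prod_mul_distrib]
      refine Finset.prod_congr rfl fun p _ => ?_
      unfold sg
      split_ifs
      · congr 2
        ring
      · congr 2
        ring
    rw [Finset.sum_congr rfl h4, prod_avg]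
    refine Finset.prod_congr rfl fun p _ => ?_
    rw [Real.cosh_eq, Real.sinh_eq]
    ring
  rw [h3] at h2
  refine h2.congr_fun ?_
  intro k
  unfold RB
  rw [Finset.sum_div]
  refine Finset.sum_congr rfl fun T _ => ?_
  ring

theorem sinh_le (x : ℝ) (h0 : 0 ≤ x) : Real.sinh x ≤ 2 * x * Real.cosh x := by
  have h1 : Real.sinh x = Real.exp x * (1 - Real.exp (-(2 * x))) / 2 := by
    have h2 : Real.exp x * Real.exp (-(2 * x)) = Real.exp (-x) := by
      rw [← Real.exp_add]
      congr 1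
      ring
    rw [Real.sinh_eq, mul_sub, h2, mul_one]
  have h2 : 1 - Real.exp (-(2 * x)) ≤ 2 * x := by
    have := Real.add_one_le_exp (-(2 * x))
    linarith
  have h3 : Real.exp x ≤ 2 * Real.cosh x := by
    rw [Real.cosh_eq]
    have := Real.exp_pos (-x)
    linarith
  have h4 : 0 < Real.exp x := Real.exp_pos x
  rw [h1]
  calc Real.exp x * (1 - Real.exp (-(2 * x))) / 2 ≤ Real.exp x * (2 * x) / 2 := by gcongr
    _ = x * Real.exp x := by ring
    _ ≤ x * (2 * Real.cosh x) := mul_le_mul_of_nonneg_left h3 h0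
    _ = 2 * x * Real.cosh x := by ring

theorem fac_ev (s : Finset ℕ) (b : ℕ → ℝ) {k : ℕ} (f : Fin k → ℕ) (h : EvC s f) : fac s b f = 1 := by
  unfold fac
  refine Finset.prod_eq_one fun p hp => ?_
  rw [if_pos (h p hp)]

theorem fac_zero (s : Finset ℕ) {k : ℕ} (f : Fin k → ℕ) (h : ¬ EvC s f) :
    fac s (fun _ => 0) f = 0 := by
  unfold EvC at h
  push Not at h
  obtain ⟨p, hp, hodd⟩ := h
  unfold fac
  exact Finset.prod_eq_zero hp (if_neg hodd)

theorem fac_mono (s : Finset ℕ) (b : ℕ → ℝ) (hb : ∀ p ∈ s, 0 ≤ b p) {k : ℕ} (f : Fin k → ℕ) :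
    fac s (fun _ => 0) f ≤ fac s b f := by
  unfold fac
  refine Finset.prod_le_prod (fun p _ => ?_) (fun p hp => ?_)
  · split_ifs <;> norm_num
  · split_ifs
    · exact le_refl _
    · exact hb p hp

open Classical in
theorem odd_tuples (s : Finset ℕ) (a β : ℕ → ℝ) (ha : ∀ p ∈ s, 0 ≤ a p ∧ a p ≤ 1)
    (hβ : ∀ p ∈ s, 0 ≤ β p ∧ β p ≤ 1) (V : ℝ) (hV : ∑ p ∈ s, a p ^ 2 ≤ V) (k : ℕ) :
    ∑ f ∈ (Fintype.piFinset (fun _ : Fin k => s)).filter (fun f => ¬ EvC s f),
      (∏ i, a (f i)) * ∏ p ∈ s, (if Even (univ.filter (fun i => f i = p)).card then 1 else β p) ≤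
      k.factorial * Real.exp (V / 2) * (Real.exp (2 * ∑ p ∈ s, a p * β p) - 1) := by
  have hD : ∀ j : ℕ, RB s a β j - RB s a (fun _ => 0) j =
      ∑ f ∈ Fintype.piFinset (fun _ : Fin j => s),
        (∏ i, a (f i)) * (fac s β f - fac s (fun _ => 0) f) := by
    intro j
    rw [rb_eq, rb_eq, ← Finset.sum_sub_distrib]
    refine Finset.sum_congr rfl fun f _ => ?_
    ring
  have hD0 : ∀ j : ℕ, 0 ≤ RB s a β j - RB s a (fun _ => 0) j := by
    intro j
    rw [hD]
    refine Finset.sum_nonneg fun f hf => mul_nonneg (Finset.prod_nonneg fun i _ => ?_) ?_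
    · exact (ha _ (Fintype.mem_piFinset.1 hf i)).1
    · exact sub_nonneg.2 (fac_mono s β (fun p hp => (hβ p hp).1) f)
  have hL : ∑ f ∈ (Fintype.piFinset (fun _ : Fin k => s)).filter (fun f => ¬ EvC s f),
      (∏ i, a (f i)) * ∏ p ∈ s, (if Even (univ.filter (fun i => f i = p)).card then 1 else β p) =
      RB s a β k - RB s a (fun _ => 0) k := by
    rw [hD, Finset.sum_filter]
    refine Finset.sum_congr rfl fun f _ => ?_
    by_cases h : EvC s f
    · rw [if_neg (not_not.2 h), fac_ev s β f h, fac_ev s _ f h, sub_self, mul_zero]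
    · rw [if_pos h, fac_zero s f h, sub_zero]
      rfl
  rw [hL]
  have hs := (rb_hasSum s a β).sub (rb_hasSum s a (fun _ => 0))
  have hk : (RB s a β k / k.factorial - RB s a (fun _ => 0) k / k.factorial) ≤ _ :=
    le_hasSum hs k (fun j _ => by
      rw [← sub_div]
      exact div_nonneg (hD0 j) (Nat.cast_nonneg _))
  have hf : (0 : ℝ) < k.factorial := by exact_mod_cast k.factorial_pos
  rw [← sub_div, div_le_iff₀ hf] at hk
  have hc : ∀ p ∈ s, 0 ≤ Real.cosh (a p) := fun p _ => (Real.cosh_pos _).le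
  have e1 : ∏ p ∈ s, (Real.cosh (a p) + β p * Real.sinh (a p)) ≤
      (∏ p ∈ s, Real.cosh (a p)) * Real.exp (2 * ∑ p ∈ s, a p * β p) := by
    rw [Finset.mul_sum, Real.exp_sum, ← Finset.prod_mul_distrib]
    refine Finset.prod_le_prod (fun p hp => ?_) (fun p hp => ?_)
    · have := Real.sinh_nonneg_iff.2 (ha p hp).1
      have := mul_nonneg (hβ p hp).1 this
      have := hc p hp
      linarith
    · have h1 := mul_le_mul_of_nonneg_left (sinh_le (a p) (ha p hp).1) (hβ p hp).1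
      have h2 := Real.add_one_le_exp (2 * (a p * β p))
      have h3 := mul_le_mul_of_nonneg_left h2 (hc p hp)
      nlinarith
  have e2 : ∏ p ∈ s, (Real.cosh (a p) + (fun _ => (0 : ℝ)) p * Real.sinh (a p)) =
      ∏ p ∈ s, Real.cosh (a p) := by
    refine Finset.prod_congr rfl fun p _ => ?_
    simp
  have e3 : ∏ p ∈ s, Real.cosh (a p) ≤ Real.exp (V / 2) := by
    calc ∏ p ∈ s, Real.cosh (a p) ≤ ∏ p ∈ s, Real.exp (a p ^ 2 / 2) :=
          Finset.prod_le_prod hc (fun p _ => Real.cosh_le_exp_half_sq _)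
      _ = Real.exp (∑ p ∈ s, a p ^ 2 / 2) := (Real.exp_sum _ _).symm
      _ ≤ _ := by
          apply Real.exp_le_exp.2
          rw [← Finset.sum_div]
          linarith
  have e4 : 0 ≤ Real.exp (2 * ∑ p ∈ s, a p * β p) - 1 := by
    rw [sub_nonneg]
    apply Real.one_le_exp
    have : 0 ≤ ∑ p ∈ s, a p * β p := Finset.sum_nonneg fun p hp => mul_nonneg (ha p hp).1 (hβ p hp).1
    linarith
  rw [e2] at hk
  have e5 : (∏ p ∈ s, (Real.cosh (a p) + β p * Real.sinh (a p))) - ∏ p ∈ s, Real.cosh (a p) ≤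
      Real.exp (V / 2) * (Real.exp (2 * ∑ p ∈ s, a p * β p) - 1) := by
    have := mul_le_mul_of_nonneg_right e3 e4
    linarith
  calc RB s a β k - RB s a (fun _ => 0) k ≤ _ := hk
    _ ≤ (Real.exp (V / 2) * (Real.exp (2 * ∑ p ∈ s, a p * β p) - 1)) * k.factorial :=
        mul_le_mul_of_nonneg_right e5 hf.le
    _ = _ := by ring

end Pool.Agent.V8H40.IN
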